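import Mathlib
import Pool.Agent.FewGroups.Rank

set_option autoImplicit false

namespace Pool.Agent.Results.MP_bbc1fa_nt.FewGroups

theorem result (r : ℕ) (A B ε : ℝ) (hε : 0 < ε) :
    ∃ C X₀ : ℝ, ∀ X : ℝ, X₀ ≤ X →
      ∃ (S : Finset ℕ) (T : Finset (Fin r → ℚ)),
        (S.card : ℝ) ≤ X ^ ε ∧ (T.card : ℝ) ≤ X ^ ε ∧
        (∀ u ∈ T, ∀ s, 0 < u s ∧ ∀ p : ℕ, p.Prime → padicValRat p (u s) ≠ 0 → p ∈ S) ∧
        ∀ g : Fin r → ℚ, (∀ k, 0 < g k) → (∀ k, ((g k).num : ℝ) ≤ X) →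
          (∀ k, ((g k).den : ℝ) ≤ X) →
          ∃ u ∈ T, Submodule.span ℚ (Set.range fun s => Real.log (u s)) ≤
              Submodule.span ℚ (Set.range fun k => Real.log (g k)) ∧
            ∀ (m : Fin 2 → Fin 2 → Fin r → ℤ) (a : Fin 2 → Fin 2 → ℚ)
              (M : Matrix (Fin 2) (Fin 2) ℝ),
            (∀ i j k, |(m i j k : ℝ)| ≤ X ^ A) →
            (∀ i j, a i j = ∏ k, g k ^ m i j k) →
            (∀ i j, M i j = Real.log (a i j)) →
            LinearIndependent ℚ (fun i : Fin 2 => fun j : Fin 2 => M i j) →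
            LinearIndependent ℚ (fun j : Fin 2 => fun i : Fin 2 => M i j) →
            (∀ i j, M i j ∈ Submodule.span ℚ (Set.range fun s => Real.log (u s)) ∧
              ∀ p : ℕ, p.Prime → padicValRat p (a i j) ≠ 0 → p ∈ S) ∨
            X ^ (-C) ≤ |M.det| ∨
            (M.det ≠ 0 ∧ ∃ w : Fin 2 → ℤ, w ≠ 0 ∧ (∀ i, |(w i : ℝ)| ≤ X ^ C) ∧
              ((∀ i, |∑ j, M i j * (w j : ℝ)| ≤ X ^ (-B) ∧ ∑ j, M i j * (w j : ℝ) ∈
                  Submodule.span ℚ (Set.range fun s => Real.log (u s))) ∨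
               (∀ j, |∑ i, (w i : ℝ) * M i j| ≤ X ^ (-B) ∧ ∑ i, (w i : ℝ) * M i j ∈
                  Submodule.span ℚ (Set.range fun s => Real.log (u s))))) :=
  Pool.Agent.FewGroups.few_rank r A B ε hε

end Pool.Agent.Results.MP_bbc1fa_nt.FewGroups
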